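import Mathlib
import Pool.Agent.W262.TW.Stm

/-!
# Project TW: the trivial bound, mean value of a multiplicative function
-/

set_option autoImplicit false

namespace Pool.Agent.W397.TW

open Finset Pool.Agent.W262.RK Pool.Agent.W262.TW

lemma mf_nonneg {b : ℕ → ℝ} (hb : ∀ p, 0 ≤ b p ∧ b p ≤ 1) (n : ℕ) : 0 ≤ mf b n :=
  prod_nonneg fun p _ => (hb p).1

lemma mf_le_one {b : ℕ → ℝ} (hb : ∀ p, 0 ≤ b p ∧ b p ≤ 1) (n : ℕ) : mf b n ≤ 1 :=
  prod_le_one (fun p _ => (hb p).1) (fun p _ => (hb p).2)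

lemma mf_mono {b : ℕ → ℝ} (hb : ∀ p, 0 ≤ b p ∧ b p ≤ 1) {m n : ℕ} (hn : n ≠ 0) (h : m ∣ n) :
    mf b n ≤ mf b m := by
  unfold mf
  exact Finset.prod_le_prod_of_subset_of_le_one (Nat.primeFactors_mono h hn)
    (fun p _ => (hb p).1) (fun p _ _ => (hb p).2)

lemma Rg_dvd {z m n : ℕ} (h : Rg z n) (hd : m ∣ n) : Rg z m :=
  ⟨h.1.squarefree_of_dvd hd, fun p hp hpm => h.2 p hp (hpm.trans hd)⟩

open Classical in
lemma sum_rough {b : ℕ → ℝ} (hb : ∀ p, 0 ≤ b p ∧ b p ≤ 1) (z Y : ℕ) :
    ∑ m ∈ (Icc 1 Y).filter (fun m => Rg z m), mf b m / m ≤ Real.exp (∑ p ∈ PS z Y, b p / p) := by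
  have h0 : ∀ p : ℕ, 0 ≤ b p / p := fun p => div_nonneg (hb p).1 (Nat.cast_nonneg p)
  calc ∑ m ∈ (Icc 1 Y).filter (fun m => Rg z m), mf b m / m
      = ∑ m ∈ (Icc 1 Y).filter (fun m => Rg z m), ∏ p ∈ m.primeFactors, (b p / p) := by
        refine sum_congr rfl fun m hm => ?_
        rw [mem_filter] at hm
        rw [prod_div_distrib]
        unfold mf
        congr 1
        rw [← Nat.cast_prod, Nat.prod_primeFactors_of_squarefree hm.2.1]
    _ = ∑ t ∈ ((Icc 1 Y).filter (fun m => Rg z m)).image Nat.primeFactors,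
          ∏ p ∈ t, (b p / p) := by
        rw [sum_image]
        intro m hm m' hm' h
        rw [mem_coe, mem_filter] at hm hm'
        rw [← Nat.prod_primeFactors_of_squarefree hm.2.1, h,
          Nat.prod_primeFactors_of_squarefree hm'.2.1]
    _ ≤ ∑ t ∈ (PS z Y).powerset, ∏ p ∈ t, (b p / p) := by
        refine sum_le_sum_of_subset_of_nonneg ?_ (fun t _ _ => prod_nonneg fun p _ => h0 p)
        intro t ht
        obtain ⟨m, hm, rfl⟩ := mem_image.mp ht
        rw [mem_filter, mem_Icc] at hm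
        rw [mem_powerset]
        intro p hp
        have hp' := Nat.prime_of_mem_primeFactors hp
        have hpd := Nat.dvd_of_mem_primeFactors hp
        unfold PS
        rw [mem_filter, mem_Ioc]
        exact ⟨⟨hm.2.2 p hp' hpd, (Nat.le_of_dvd (by omega) hpd).trans hm.1.2⟩, hp'⟩
    _ = ∏ p ∈ PS z Y, (1 + b p / p) := (Finset.prod_one_add _).symm
    _ ≤ Real.exp (∑ p ∈ PS z Y, b p / p) := by
        rw [Real.exp_sum]
        refine prod_le_prod (fun p _ => by linarith [h0 p]) (fun p _ => ?_)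
        rw [add_comm]
        exact Real.add_one_le_exp _

lemma sum_small {b : ℕ → ℝ} (hb : ∀ p, 0 ≤ b p ∧ b p ≤ 1) (V : ℕ) :
    ∑ m ∈ Icc 1 V, mf b m / m ≤ 1 + Real.log V := by
  refine le_trans ?_ (harmonic_le_one_add_log V)
  rw [harmonic_eq_sum_Icc]
  push_cast
  refine sum_le_sum fun m _ => ?_
  rw [div_eq_mul_inv]
  have h1 := mf_le_one hb m
  have h2 : (0 : ℝ) ≤ (m : ℝ)⁻¹ := by positivity
  nlinarith

open Classical in
lemma mem_TT' {ι I : Type} [Fintype ι] [DecidableEq ι] {g : ι → I} {z Y V : ℕ} {e : ι → ℕ} :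
    e ∈ TT g z Y V ↔ (∀ a, e a ∈ Icc 1 Y) ∧ (∀ a, Rg z (e a)) ∧
    (∀ a b, a ≠ b → (e a).Coprime (e b)) ∧ ∏ a, e a ≤ Y ∧
    ∀ i, V < ∏ a ∈ univ.filter (fun a => g a = i), e a := by
  unfold TT
  rw [@Finset.mem_filter _ _ _ _ _, Fintype.mem_piFinset]

open Classical in
lemma sum_tuples {ι : Type} [Fintype ι] [DecidableEq ι] (z Y V0 : ℕ) (hV : 1 ≤ V0)
    (b : ι → ℕ → ℝ) (A : Finset ι) (hb : ∀ a p, 0 ≤ b a p ∧ b a p ≤ 1) :
    ∑ e ∈ (TT (fun a : ι => a) z Y 0).filter (fun e => ∀ a, a ∉ A → e a ≤ V0),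
      (∏ a, mf (b a) (e a)) / ((∏ a, e a : ℕ) : ℝ) ≤
      (1 + Real.log V0) ^ Fintype.card ι * Real.exp (∑ p ∈ PS z Y, (∑ a ∈ A, b a p) / p) := by
  set S : ι → Finset ℕ := fun a => if a ∈ A then (Icc 1 Y).filter (fun m => Rg z m) else Icc 1 V0
    with hS
  have hlog : 0 ≤ Real.log V0 := Real.log_nonneg (by exact_mod_cast hV)
  have hnn : ∀ a (m : ℕ), 0 ≤ mf (b a) m / m := fun a m =>
    div_nonneg (mf_nonneg (hb a) m) (Nat.cast_nonneg m)
  calc ∑ e ∈ (TT (fun a : ι => a) z Y 0).filter (fun e => ∀ a, a ∉ A → e a ≤ V0),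
      (∏ a, mf (b a) (e a)) / ((∏ a, e a : ℕ) : ℝ)
      = ∑ e ∈ (TT (fun a : ι => a) z Y 0).filter (fun e => ∀ a, a ∉ A → e a ≤ V0),
          ∏ a, (mf (b a) (e a) / (e a : ℝ)) := by
        refine sum_congr rfl fun e _ => ?_
        rw [prod_div_distrib, Nat.cast_prod]
    _ ≤ ∑ e ∈ Fintype.piFinset S, ∏ a, (mf (b a) (e a) / (e a : ℝ)) := by
        refine sum_le_sum_of_subset_of_nonneg ?_ (fun e _ _ => prod_nonneg fun a _ => hnn a _)
        intro e he
        rw [mem_filter] at he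
        obtain ⟨he, hV'⟩ := he
        rw [mem_TT'] at he
        rw [Fintype.mem_piFinset]
        intro a
        have h1 := he.1 a
        rw [hS]
        by_cases ha : a ∈ A
        · simp only [if_pos ha, mem_filter]
          exact ⟨h1, he.2.1 a⟩
        · simp only [if_neg ha, mem_Icc]
          exact ⟨(mem_Icc.mp h1).1, hV' a ha⟩
    _ = ∏ a, ∑ m ∈ S a, mf (b a) m / m := (Finset.prod_univ_sum S (fun a m => mf (b a) m / (m : ℝ))).symm
    _ ≤ ∏ a, (if a ∈ A then Real.exp (∑ p ∈ PS z Y, b a p / p) else 1 + Real.log V0) := by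
        refine prod_le_prod (fun a _ => sum_nonneg fun m _ => hnn a m) (fun a _ => ?_)
        rw [hS]
        by_cases ha : a ∈ A
        · simp only [if_pos ha]
          exact sum_rough (hb a) z Y
        · simp only [if_neg ha]
          exact sum_small (hb a) V0
    _ ≤ ∏ a, ((1 + Real.log V0) *
          (if a ∈ A then Real.exp (∑ p ∈ PS z Y, b a p / p) else 1)) := by
        refine prod_le_prod (fun a _ => ?_) (fun a _ => ?_)
        · by_cases ha : a ∈ A
          · rw [if_pos ha]; exact (Real.exp_pos _).le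
          · rw [if_neg ha]; linarith
        · by_cases ha : a ∈ A
          · rw [if_pos ha, if_pos ha]
            nlinarith [Real.exp_pos (∑ p ∈ PS z Y, b a p / p)]
          · rw [if_neg ha, if_neg ha, mul_one]
    _ = (1 + Real.log V0) ^ Fintype.card ι *
          Real.exp (∑ p ∈ PS z Y, (∑ a ∈ A, b a p) / p) := by
        rw [prod_mul_distrib, prod_const, card_univ, ← prod_filter, ← Real.exp_sum]
        congr 2
        rw [sum_comm]
        refine sum_congr rfl fun p _ => ?_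
        rw [sum_div]
        refine sum_congr ?_ fun a _ => rfl
        ext a
        simp

lemma theta_bound (T : ℕ) :
    ∑ p ∈ (Icc 1 T).filter Nat.Prime, Real.log p ≤ Real.log 4 * T := by
  have h := Chebyshev.theta_le_log4_mul_x (Nat.cast_nonneg T : (0 : ℝ) ≤ T)
  unfold Chebyshev.theta at h
  rw [Nat.floor_natCast] at h
  refine le_trans (le_of_eq ?_) h
  refine sum_congr ?_ fun p _ => rfl
  ext p
  simp only [mem_filter, mem_Icc, mem_Ioc]
  constructor
  · rintro ⟨⟨h1, h2⟩, h3⟩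
    exact ⟨⟨by omega, h2⟩, h3⟩
  · rintro ⟨⟨h1, h2⟩, h3⟩
    exact ⟨⟨by omega, h2⟩, h3⟩

lemma log_sqf {n : ℕ} (hn : Squarefree n) :
    Real.log n = ∑ p ∈ n.primeFactors, Real.log p := by
  conv_lhs => rw [← Nat.prod_primeFactors_of_squarefree hn]
  rw [Nat.cast_prod, Real.log_prod]
  intro p hp
  exact_mod_cast (Nat.prime_of_mem_primeFactors hp).ne_zero

open Classical in
lemma mem_WW {ι : Type} [Fintype ι] [DecidableEq ι] {z Y V0 : ℕ} {A : Finset ι} {e : ι → ℕ} :
    e ∈ (TT (fun a : ι => a) z Y 0).filter (fun e => ∀ a, a ∉ A → e a ≤ V0) ↔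
      (∀ a, 1 ≤ e a) ∧ (∀ a, Rg z (e a)) ∧ (∀ a b, a ≠ b → (e a).Coprime (e b)) ∧
        ∏ a, e a ≤ Y ∧ ∀ a, a ∉ A → e a ≤ V0 := by
  rw [mem_filter, mem_TT']
  constructor
  · rintro ⟨⟨h1, h2, h3, h4, h5⟩, h6⟩
    exact ⟨fun a => (mem_Icc.mp (h1 a)).1, h2, h3, h4, h6⟩
  · rintro ⟨h1, h2, h3, h4, h6⟩
    refine ⟨⟨fun a => mem_Icc.mpr ⟨h1 a, ?_⟩, h2, h3, h4, ?_⟩, h6⟩
    · refine le_trans ?_ h4
      exact Nat.le_of_dvd (prod_pos fun a _ => h1 a) (dvd_prod_of_mem e (mem_univ a))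
    · intro i
      exact prod_pos fun a _ => h1 a

open Classical in
lemma swap {ι : Type} [Fintype ι] [DecidableEq ι] (z Y V0 : ℕ)
    (b : ι → ℕ → ℝ) (A : Finset ι) (hb : ∀ a p, 0 ≤ b a p ∧ b a p ≤ 1) (a : ι) :
    ∑ e ∈ (TT (fun a : ι => a) z Y 0).filter (fun e => ∀ a, a ∉ A → e a ≤ V0),
      (∏ a, mf (b a) (e a)) * Real.log (e a) ≤
    ∑ e ∈ (TT (fun a : ι => a) z Y 0).filter (fun e => ∀ a, a ∉ A → e a ≤ V0),
      (∏ a, mf (b a) (e a)) * (Real.log 4 * (Y / ((∏ a, e a : ℕ) : ℝ))) := by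
  set W := (TT (fun a : ι => a) z Y 0).filter (fun e => ∀ a, a ∉ A → e a ≤ V0) with hW
  set F : (ι → ℕ) → ℝ := fun e => ∏ a, mf (b a) (e a) with hF
  have hF0 : ∀ e, 0 ≤ F e := fun e => prod_nonneg fun a _ => mf_nonneg (hb a) _
  have hmap : ∀ e ∈ W, ∀ p ∈ (e a).primeFactors,
      Function.update e a (e a / p) ∈ W ∧ F e ≤ F (Function.update e a (e a / p)) ∧
      p * ∏ c, Function.update e a (e a / p) c = ∏ c, e c := by
    intro e he p hp
    rw [hW, mem_WW] at he
    obtain ⟨h1, h2, h3, h4, h5⟩ := he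
    have hp' := Nat.prime_of_mem_primeFactors hp
    have hpd := Nat.dvd_of_mem_primeFactors hp
    have hdd : e a / p ∣ e a := Nat.div_dvd_of_dvd hpd
    have hdvd : ∀ c, Function.update e a (e a / p) c ∣ e c := by
      intro c
      by_cases hc : c = a
      · subst hc; rw [Function.update_self]; exact hdd
      · rw [Function.update_of_ne hc]
    have hpos : ∀ c, 1 ≤ Function.update e a (e a / p) c := fun c =>
      Nat.pos_of_dvd_of_pos (hdvd c) (h1 c)
    have hprod : p * ∏ c, Function.update e a (e a / p) c = ∏ c, e c := by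
      rw [← mul_prod_erase univ e (mem_univ a),
        ← mul_prod_erase univ (Function.update e a (e a / p)) (mem_univ a),
        Function.update_self, ← mul_assoc, Nat.mul_div_cancel' hpd]
      congr 1
      refine prod_congr rfl fun c hc => ?_
      rw [Function.update_of_ne (ne_of_mem_erase hc)]
    refine ⟨?_, ?_, hprod⟩
    · rw [hW, mem_WW]
      refine ⟨hpos, fun c => Rg_dvd (h2 c) (hdvd c), fun c d hcd => ?_, ?_, fun c hc => ?_⟩
      · exact Nat.Coprime.of_dvd (hdvd c) (hdvd d) (h3 c d hcd)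
      · refine le_trans (Nat.le_of_dvd (prod_pos fun c _ => h1 c) ?_) h4
        exact prod_dvd_prod_of_dvd _ _ fun c _ => hdvd c
      · exact (Nat.le_of_dvd (h1 c) (hdvd c)).trans (h5 c hc)
    · rw [hF]
      refine prod_le_prod (fun c _ => mf_nonneg (hb c) _) (fun c _ => ?_)
      exact mf_mono (hb c) (by have := h1 c; omega) (hdvd c)
  calc ∑ e ∈ W, F e * Real.log (e a)
      = ∑ e ∈ W, ∑ p ∈ (e a).primeFactors, F e * Real.log p := by
        refine sum_congr rfl fun e he => ?_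
        rw [hW, mem_WW] at he
        rw [log_sqf (he.2.1 a).1, mul_sum]
    _ = ∑ x ∈ W.sigma (fun e => (e a).primeFactors), F x.1 * Real.log x.2 := by
        rw [sum_sigma]
    _ ≤ ∑ x ∈ W.sigma (fun e => (e a).primeFactors),
          F (Function.update x.1 a (x.1 a / x.2)) * Real.log x.2 := by
        refine sum_le_sum fun x hx => ?_
        rw [mem_sigma] at hx
        refine mul_le_mul_of_nonneg_right (hmap x.1 hx.1 x.2 hx.2).2.1 ?_
        exact Real.log_natCast_nonneg _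
    _ = ∑ y ∈ (W.sigma (fun e => (e a).primeFactors)).image
          (fun x : (_ : ι → ℕ) × ℕ => (⟨Function.update x.1 a (x.1 a / x.2), x.2⟩ : (_ : ι → ℕ) × ℕ)),
          F y.1 * Real.log y.2 := by
        rw [sum_image]
        rintro ⟨e, p⟩ hx ⟨e', p'⟩ hx' h
        rw [mem_coe, mem_sigma] at hx hx'
        simp only [Sigma.mk.injEq, heq_eq_eq] at h
        obtain ⟨h1, h2⟩ := h
        subst h2
        have hpd := Nat.dvd_of_mem_primeFactors hx.2
        have hpd' := Nat.dvd_of_mem_primeFactors hx'.2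
        have : e = e' := by
          funext c
          have h3 := congrFun h1 c
          by_cases hc : c = a
          · subst hc
            rw [Function.update_self, Function.update_self] at h3
            have h4 := Nat.div_mul_cancel hpd
            have h5 := Nat.div_mul_cancel hpd'
            simp only at h3 h4 h5
            rw [← h4, ← h5, h3]
          · rwa [Function.update_of_ne hc, Function.update_of_ne hc] at h3
        rw [this]
    _ ≤ ∑ y ∈ W.sigma (fun e => (Icc 1 (Y / ∏ c, e c)).filter Nat.Prime),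
          F y.1 * Real.log y.2 := by
        refine sum_le_sum_of_subset_of_nonneg ?_ (fun y _ _ =>
          mul_nonneg (hF0 _) (Real.log_natCast_nonneg _))
        intro y hy
        obtain ⟨x, hx, rfl⟩ := mem_image.mp hy
        rw [mem_sigma] at hx
        obtain ⟨h1, -, h2⟩ := hmap x.1 hx.1 x.2 hx.2
        have hp' := Nat.prime_of_mem_primeFactors hx.2
        rw [mem_sigma]
        refine ⟨h1, ?_⟩
        simp only [mem_filter, mem_Icc]
        refine ⟨⟨hp'.one_lt.le, ?_⟩, hp'⟩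
        have h3 := (mem_WW.mp (hW ▸ h1)).1
        rw [Nat.le_div_iff_mul_le (prod_pos fun c _ => h3 c), h2]
        exact (mem_WW.mp (hW ▸ hx.1)).2.2.2.1
    _ = ∑ e ∈ W, F e * ∑ p ∈ (Icc 1 (Y / ∏ c, e c)).filter Nat.Prime, Real.log p := by
        rw [sum_sigma]
        refine sum_congr rfl fun e _ => ?_
        rw [mul_sum]
    _ ≤ ∑ e ∈ W, F e * (Real.log 4 * (Y / ((∏ a, e a : ℕ) : ℝ))) := by
        refine sum_le_sum fun e _ => mul_le_mul_of_nonneg_left ?_ (hF0 e)
        refine (theta_bound _).trans ?_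
        refine mul_le_mul_of_nonneg_left ?_ (Real.log_nonneg (by norm_num))
        exact Nat.cast_div_le

theorem triv : TRIV := by
  classical
  intro ι _ _
  refine ⟨1 + Fintype.card ι * Real.log 4, ?_⟩
  intro z Y V0 b A hY hV0 hb
  set W := (TT (fun a : ι => a) z Y 0).filter (fun e => ∀ a, a ∉ A → e a ≤ V0) with hW
  set F : (ι → ℕ) → ℝ := fun e => ∏ a, mf (b a) (e a) with hF
  have hF0 : ∀ e, 0 ≤ F e := fun e => prod_nonneg fun a _ => mf_nonneg (hb a) _
  have hY0 : (0 : ℝ) < Y := by exact_mod_cast (by omega : 0 < Y)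
  have hlY : 0 < Real.log Y := Real.log_pos (by exact_mod_cast (by omega : 1 < Y))
  have hl4 : 0 < Real.log 4 := Real.log_pos (by norm_num)
  have h3 := sum_tuples z Y V0 hV0 b A hb
  set R := (1 + Real.log V0) ^ Fintype.card ι *
    Real.exp (∑ p ∈ PS z Y, (∑ a ∈ A, b a p) / p) with hR
  have h1 : (∑ e ∈ W, F e) * Real.log Y ≤
      (1 + Fintype.card ι * Real.log 4) * (Y * ∑ e ∈ W, F e / ((∏ a, e a : ℕ) : ℝ)) := by
    calc (∑ e ∈ W, F e) * Real.log Y
        = ∑ e ∈ W, F e * Real.log (Y / ((∏ a, e a : ℕ) : ℝ)) +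
            ∑ e ∈ W, F e * Real.log ((∏ a, e a : ℕ) : ℝ) := by
          rw [sum_mul, ← sum_add_distrib]
          refine sum_congr rfl fun e he => ?_
          have hpos : (0 : ℝ) < ((∏ a, e a : ℕ) : ℝ) := by
            exact_mod_cast prod_pos fun a _ => (mem_WW.mp (hW ▸ he)).1 a
          rw [Real.log_div hY0.ne' hpos.ne']
          ring
      _ ≤ ∑ e ∈ W, F e * (Y / ((∏ a, e a : ℕ) : ℝ)) +
            ∑ a : ι, ∑ e ∈ W, F e * (Real.log 4 * (Y / ((∏ a, e a : ℕ) : ℝ))) := by
          refine add_le_add ?_ ?_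
          · refine sum_le_sum fun e he => mul_le_mul_of_nonneg_left ?_ (hF0 e)
            exact Real.log_le_self (by positivity)
          · calc ∑ e ∈ W, F e * Real.log ((∏ a, e a : ℕ) : ℝ)
                = ∑ e ∈ W, ∑ a, F e * Real.log (e a) := by
                  refine sum_congr rfl fun e he => ?_
                  rw [Nat.cast_prod, Real.log_prod, mul_sum]
                  intro a _
                  have := (mem_WW.mp (hW ▸ he)).1 a
                  exact_mod_cast (by omega : e a ≠ 0)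
              _ = ∑ a, ∑ e ∈ W, F e * Real.log (e a) := sum_comm
              _ ≤ _ := sum_le_sum fun a _ => swap z Y V0 b A hb a
      _ = (1 + Fintype.card ι * Real.log 4) * (Y * ∑ e ∈ W, F e / ((∏ a, e a : ℕ) : ℝ)) := by
          rw [sum_const, card_univ, nsmul_eq_mul, add_mul, one_mul, mul_sum, mul_sum, mul_sum]
          congr 1
          · refine sum_congr rfl fun e _ => ?_
            ring
          · refine sum_congr rfl fun e _ => ?_
            ring
  have h2 : (∑ e ∈ W, F e) * Real.log Y ≤ (1 + Fintype.card ι * Real.log 4) * (Y * R) := by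
    refine h1.trans ?_
    refine mul_le_mul_of_nonneg_left ?_ (by positivity)
    exact mul_le_mul_of_nonneg_left h3 hY0.le
  calc ∑ e ∈ W, F e = (∑ e ∈ W, F e) * Real.log Y / Real.log Y := by
        rw [mul_div_assoc, div_self hlY.ne', mul_one]
    _ ≤ (1 + Fintype.card ι * Real.log 4) * (Y * R) / Real.log Y :=
        div_le_div_of_nonneg_right h2 hlY.le
    _ = (1 + Fintype.card ι * Real.log 4) * (Y / Real.log Y) *
          (1 + Real.log V0) ^ Fintype.card ι *
          Real.exp (∑ p ∈ PS z Y, (∑ a ∈ A, b a p) / p) := by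
        rw [hR]
        ring

end Pool.Agent.W397.TW
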